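import Pool.Agent.W353.FB.Final
import Pool.Agent.Y707.PR.Pen

/-! Natural averages of the values of a family over all number fields. -/

set_option autoImplicit false
set_option maxHeartbeats 400000

namespace Pool.Agent.Y707.TP

open NumberField IsDedekindDomain Filter Topology Polynomial
open Pool.Agent.W353.TD (rank)
open Pool.Agent.W353.SP (Spectrum)
open Pool.Agent.W353.FB (LocalValue ValueAt IsPartOf Uniq IsSystem average tauberian)
open Pool.Agent.Y707.PC
open Pool.Agent.Y707.PH (averageValue)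

section
variable {K : Type} [Field K] [NumberField K]

theorem zero_of_spectrum {δ : IntermediateField K (AlgebraicClosure K) → ℝ}
    {y : ∀ n : ℕ, Representation ℂ Gal(AlgebraicClosure K/K) (Fin n → ℂ) → ℝ}
    (h : Spectrum K 0 δ y) (F : IntermediateField K (AlgebraicClosure K)) [NumberField F] :
    δ F = 0 := by
  obtain ⟨-, h2, h3, -⟩ := h
  obtain ⟨κ, hκ, n, χ, h4, h5, -, h6⟩ := h3 F
  have h7 := h2 κ n χ (fun k => (h4 k).1) (fun k => (h4 k).2) h5
  rw [Nat.cast_zero, zero_pow two_ne_zero] at h7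
  have h8 : ∀ k, y (n k) (χ k) = 0 := by
    intro k
    have h9 := Finset.single_le_sum (f := fun k => y (n k) (χ k) ^ 2)
      (fun k _ => sq_nonneg _) (Finset.mem_univ k)
    exact pow_eq_zero_iff two_ne_zero |>.1 (le_antisymm (h9.trans h7) (sq_nonneg _))
  rw [h6]
  exact Finset.sum_eq_zero fun k _ => by rw [h8, zero_mul]

variable {W : Type} [AddCommGroup W] [Module ℚ W] [FiniteDimensional ℚ W]
  {ρ : Representation ℚ Gal(AlgebraicClosure K/K) W} {P : LocalValue K}

/-- the natural averages -/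
theorem limit_of_part (hu : Uniq P) (hP : IsPartOf P (Module.finrank ℚ W) ρ)
    (F : IntermediateField K (AlgebraicClosure K)) [NumberField F]
    {R : Finset (HeightOneSpectrum (𝓞 F))} {b : HeightOneSpectrum (𝓞 F) → ℝ}
    (hb : IsSystem P R b) : Tendsto (average R b) atTop (𝓝 (rank ρ F : ℝ)) := by
  refine tendsto_of_subseq_tendsto fun T hT => ?_
  obtain ⟨φ, hφ, δ, y, h1, -, h3⟩ := tauberian hu hP T hT
  refine ⟨φ, ?_⟩
  have h4 := h1 F R b hb
  have h5 := h3.1
  rw [Nat.sub_self] at h5
  rw [zero_of_spectrum h5, sub_zero] at h4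
  exact h4

end

section
variable {K : Type} [Field K] [NumberField K] {k l r g : ℕ}
  {G : Fin l → MvPolynomial (Fin k) (𝓞 K)}
  {a : (MvPolynomial (Fin k) (𝓞 K))[X]} {α : Fin r → MvPolynomial (Fin k) (𝓞 K)}

/-- **The natural averages for a linear pencil.** -/
theorem pencil_limit (hG : ∀ S : Finset (Fin l), S.Nonempty → ¬ IsConstSq (∏ i ∈ S, G i))
    (ha : a.Monic) (hd : a.natDegree = 2 * g + 1) (hr : r ≤ 2 * g)
    (haα : ∀ j, a.eval (α j) ≠ 0) (hα : Function.Injective α)
    (F : IntermediateField K (AlgebraicClosure K)) [NumberField F]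
    {b : HeightOneSpectrum (𝓞 F) → ℝ}
    (hb : ∀ v, ValueAt (averageValue (pencil g G a α)) v (b v))
    (R : Finset (HeightOneSpectrum (𝓞 F))) :
    Tendsto (average R b) atTop (𝓝 (count G a α F : ℝ)) := by
  obtain ⟨δ, y, hy, hy0, hδ, hP⟩ := isPartOf ha hd hr haα hα (ne_of_ind hG)
  have h := limit_of_part Pool.Agent.Y707.PR.uniq_average hP F (R := R) (b := b)
    ⟨fun v _ => hb v, CC l g a α, fun v _ => Pool.Agent.Y707.PR.value_bound ha hd hr (hb v)⟩
  have e := rank_eq haα (ne_of_ind hG) hG (hy := hy) (hy0 := hy0) hδ F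
  have e2 : (rank (rp hy hy0) F : ℝ) = count G a α F := by
    exact_mod_cast e
  rw [e2] at h
  exact h

end

end Pool.Agent.Y707.TP
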